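import Pool.Agent.H17.Big

set_option autoImplicit false
open Cardinal

namespace Pool.Agent.Results.MP_5155e4_gt.Neg
open Pool.Agent.H17.Big

theorem result : ∃ (X : Type) (_ : TopologicalSpace X), T35Space X ∧ FirstCountableTopology X ∧
    (∀ x : X, IsGδ ({x} : Set X)) ∧
    (∃ (K M : Type) (_ : TopologicalSpace K) (_ : TopologicalSpace M),
      CompactSpace K ∧ T2Space K ∧ TopologicalSpace.SeparableSpace M ∧
      TopologicalSpace.MetrizableSpace M ∧ ∃ F : Set (K × M), IsClosed F ∧
        ∃ φ : F → {f : X → ℝ // Continuous f}, Continuous φ ∧ Function.Surjective φ) ∧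
    continuum < Cardinal.mk X := by
  refine ⟨XX, inferInstance, inferInstance, inferInstance, fun x => IsGδ.singleton x,
    ⟨K, ℕ → ℕ, inferInstance, inferInstance, inferInstance, inferInstance, inferInstance,
      inferInstance, FF, FF_closed, fun p => ⟨val p.1, FF_cont p.2⟩,
      (continuous_pi fun x => (val_cont x).comp continuous_subtype_val).subtype_mk _,
      fun f => ?_⟩, card⟩
  obtain ⟨p, hp, e⟩ := FF_surj f.2
  exact ⟨⟨p, hp⟩, Subtype.ext e⟩

end Pool.Agent.Results.MP_5155e4_gt.Neg
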